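import Mathlib

set_option autoImplicit false

namespace Pool.Agent.Results.MP_98b1c4_co.Two

/-- regular type A sequences -/
inductive Reg : List ℕ → Prop
  | base : Reg [1, 1]
  | front (l : List ℕ) (j : ℕ) : Reg l → 1 ≤ j → j ≤ l.length → Reg ((l.take j).sum :: l)
  | back (l : List ℕ) (j : ℕ) : Reg l → 1 ≤ j → j ≤ l.length →
      Reg (l ++ [(l.drop (l.length - j)).sum])

/-- lengths of regular type A sequences containing some ordering of `ks` as a subsequence -/
def lens (ks : List ℕ) : Set ℕ :=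
  {n | ∃ l, Reg l ∧ l.length = n ∧ ∃ p : List ℕ, p.Perm ks ∧ p.Sublist l}

def ch (l : List ℕ) : List (List ℕ) :=
  ((List.range l.length).map fun i => (l.take (i + 1)).sum :: l) ++
    ((List.range l.length).map fun i => l ++ [(l.drop (l.length - (i + 1))).sum])

theorem step {l : List ℕ} (h : Reg l) : l = [1, 1] ∨ ∃ p, Reg p ∧ l ∈ ch p := by
  cases h with
  | base => exact Or.inl rfl
  | front p j hp h1 h2 =>
    refine Or.inr ⟨p, hp, List.mem_append_left _ (List.mem_map.2 ⟨j - 1, ?_, ?_⟩)⟩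
    · rw [List.mem_range]; omega
    · rw [Nat.sub_add_cancel h1]
  | back p j hp h1 h2 =>
    refine Or.inr ⟨p, hp, List.mem_append_right _ (List.mem_map.2 ⟨j - 1, ?_, ?_⟩)⟩
    · rw [List.mem_range]; omega
    · rw [Nat.sub_add_cancel h1]

theorem reg_ch {l p : List ℕ} (hp : Reg p) (h : l ∈ ch p) : Reg l := by
  rcases List.mem_append.1 h with h | h <;> obtain ⟨i, hi, rfl⟩ := List.mem_map.1 h <;>
    rw [List.mem_range] at hi
  · exact Reg.front p _ hp (by omega) (by omega)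
  · exact Reg.back p _ hp (by omega) (by omega)

theorem ch_spec {l p : List ℕ} (h : l ∈ ch p) : l.length = p.length + 1 ∧
    ∃ x, x ≤ p.sum ∧ l.sum = p.sum + x ∧ ∀ y ∈ l, y = x ∨ y ∈ p := by
  rcases List.mem_append.1 h with h | h <;> obtain ⟨i, hi, rfl⟩ := List.mem_map.1 h
  · have := List.sum_take_add_sum_drop p (i + 1)
    exact ⟨by simp, _, (by omega : (p.take (i + 1)).sum ≤ p.sum), by simp [add_comm], by simp⟩
  · have := List.sum_take_add_sum_drop p (p.length - (i + 1))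
    refine ⟨by simp, _, (by omega : (p.drop (p.length - (i + 1))).sum ≤ p.sum), by simp, ?_⟩
    intro y hy
    rcases List.mem_append.1 hy with h | h
    · exact Or.inr h
    · exact Or.inl (by simpa using h)

theorem bound : ∀ (n : ℕ) (l : List ℕ), Reg l → l.length = n →
    2 ≤ n ∧ 2 * l.sum ≤ 2 ^ n ∧ ∀ y ∈ l, 4 * y ≤ 2 ^ n := by
  intro n
  induction n with
  | zero =>
    intro l h hl
    rcases step h with rfl | ⟨p, _, h2⟩
    · simp at hl
    · have := (ch_spec h2).1; omega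
  | succ n ih =>
    intro l h hl
    rcases step h with rfl | ⟨p, hp, h2⟩
    · obtain rfl : n = 1 := by simpa using hl.symm
      simp
    · obtain ⟨h3, x, h4, h5, h6⟩ := ch_spec h2
      obtain ⟨h7, h8, h9⟩ := ih p hp (by omega)
      refine ⟨by omega, by rw [pow_succ]; omega, fun y hy => ?_⟩
      rw [pow_succ]
      rcases h6 y hy with rfl | hy
      · omega
      · have := h9 y hy; omega

def good : ℕ → List (List ℕ) := fun n =>
  Nat.rec [[1, 1]] (fun k r => (r.flatMap ch).filter (fun l => Nat.ble 51 (l.sum * 2 ^ (4 - k)))) n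

theorem mem_good : ∀ k ≤ 5, ∀ l, Reg l → l.length = k + 2 → 51 ≤ l.sum * 2 ^ (5 - k) → l ∈ good k := by
  intro k
  induction k with
  | zero =>
    intro _ l h hl _
    rcases step h with rfl | ⟨p, hp, h2⟩
    · exact List.mem_singleton.2 rfl
    · have := (ch_spec h2).1
      have := (bound _ p hp rfl).1
      omega
  | succ k ih =>
    intro hk l h hl h1
    rcases step h with rfl | ⟨p, hp, h2⟩
    · simp at hl
    · obtain ⟨h3, x, h4, h5, -⟩ := ch_spec h2
      have e : 5 - (k + 1) = 4 - k := by omega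
      rw [e] at h1
      have h6 : p ∈ good k := by
        apply ih (by omega) p hp (by omega)
        rw [show 5 - k = 4 - k + 1 by omega, pow_succ]
        have : l.sum * 2 ^ (4 - k) ≤ (p.sum * 2) * 2 ^ (4 - k) := Nat.mul_le_mul_right _ (by omega)
        nlinarith
      exact List.mem_filter.2 ⟨List.mem_flatMap.2 ⟨p, h6, h2⟩, by simpa using h1⟩

theorem chk : ∀ p ∈ good 5, ∀ c ∈ ch p, (51 ∈ c ∨ 60 ∈ c) → ∀ d ∈ ch c, ¬ (51 ∈ d ∧ 60 ∈ d) := by
  decide +kernel

theorem ten (l : List ℕ) (h : Reg l) (h1 : 51 ∈ l) (h2 : 60 ∈ l) : 10 ≤ l.length := by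
  by_contra hn
  have small : ∀ p, Reg p → p.length ≤ 7 → ∀ y ∈ p, y ≤ 32 := by
    intro p hp hl y hy
    have h3 := (bound _ p hp rfl).2.2 y hy
    have : 2 ^ p.length ≤ 2 ^ 7 := Nat.pow_le_pow_right (by norm_num) hl
    omega
  rcases step h with rfl | ⟨c, hc, h3⟩
  · simp at h1
  obtain ⟨h4, x, -, -, h5⟩ := ch_spec h3
  have h6 : 51 ∈ c ∨ 60 ∈ c := by
    rcases h5 _ h1 with e | e
    · rcases h5 _ h2 with e' | e'
      · omega
      · exact Or.inr e'
    · exact Or.inl e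
  have h7 : c.length = 8 := by
    by_contra h7
    rcases h6 with e | e <;> have := small c hc (by omega) _ e <;> omega
  rcases step hc with rfl | ⟨p, hp, h8⟩
  · simp at h7
  obtain ⟨h9, y, h10, -, h11⟩ := ch_spec h8
  have h12 : 51 ≤ p.sum := by
    rcases h6 with e | e <;> rcases h11 _ e with e' | e'
    · omega
    · have := small p hp (by omega) _ e'; omega
    · omega
    · have := small p hp (by omega) _ e'; omega
  exact chk p (mem_good 5 le_rfl p hp (by omega) (by simpa using h12)) c h8 h6 l h3 ⟨h1, h2⟩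

theorem r1 : Reg [2, 1, 1] := reg_ch Reg.base (by decide)

theorem r8 : Reg [60, 30, 15, 7, 4, 2, 1, 1] :=
  reg_ch (reg_ch (reg_ch (reg_ch (reg_ch r1 (by decide : [4, 2, 1, 1] ∈ _))
    (by decide : [7, 4, 2, 1, 1] ∈ _)) (by decide : [15, 7, 4, 2, 1, 1] ∈ _))
    (by decide : [30, 15, 7, 4, 2, 1, 1] ∈ _)) (by decide)

theorem r10 : Reg [51, 26, 13, 7, 3, 2, 1, 1, 7, 60] :=
  reg_ch (reg_ch (reg_ch (reg_ch (reg_ch (reg_ch (reg_ch r1 (by decide : [3, 2, 1, 1] ∈ _))
    (by decide : [7, 3, 2, 1, 1] ∈ _)) (by decide : [13, 7, 3, 2, 1, 1] ∈ _))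
    (by decide : [26, 13, 7, 3, 2, 1, 1] ∈ _)) (by decide : [51, 26, 13, 7, 3, 2, 1, 1] ∈ _))
    (by decide : [51, 26, 13, 7, 3, 2, 1, 1, 7] ∈ _)) (by decide)

theorem result : IsLeast (lens [60]) 8 ∧ IsLeast (lens [51, 60]) 10 := by
  refine ⟨⟨⟨_, r8, rfl, [60], List.Perm.refl _, by decide⟩, ?_⟩,
    ⟨⟨_, r10, rfl, [51, 60], List.Perm.refl _, by decide⟩, ?_⟩⟩
  · rintro n ⟨l, h, rfl, p, h1, h2⟩
    have h3 := (bound _ l h rfl).2.2 60 (h2.subset (h1.mem_iff.2 (by simp)))
    by_contra hn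
    have : 2 ^ l.length ≤ 2 ^ 7 := Nat.pow_le_pow_right (by norm_num) (by omega)
    omega
  · rintro n ⟨l, h, rfl, p, h1, h2⟩
    exact ten l h (h2.subset (h1.mem_iff.2 (by simp))) (h2.subset (h1.mem_iff.2 (by simp)))

end Pool.Agent.Results.MP_98b1c4_co.Two
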